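import Pool.Agent.Helper96.CB.KEY

/-!
# CB: modules G1, TRANS, HIL
-/

open Filter Topology

namespace Pool.Agent.Helper83.CB

theorem st_G1 : ST_G1 := by
  intro m N hN H A C hR a ha c hc
  have h1 := hR.rot a ha (-a) (A.neg_mem ha) c hc (KEY.neg hN a).symm
  constructor
  · have h2 := hN.add (a + c) (-(-a + c))
    rw [KEY.neg hN, ← h1] at h2
    have e : a + c + -(-a + c) = (2 : ℂ) • a := by
      rw [two_smul]; abel
    rw [e, hN.smul] at h2
    norm_num at h2
    linarith
  · have h2 := hN.add (a + c) (-a + c)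
    rw [← h1] at h2
    have e : a + c + (-a + c) = (2 : ℂ) • c := by
      rw [two_smul]; abel
    rw [e, hN.smul] at h2
    norm_num at h2
    linarith

theorem st_TRANS : ST_TRANS := by
  intro n m N0 N h0 h L hL
  have inj : Function.Injective L := by
    rw [injective_iff_map_eq_zero]
    intro z hz
    by_contra hne
    have h1 := h0.pos z hne
    rw [← hL z, hz, KEY.zero h] at h1
    exact lt_irrefl _ h1
  have inj' : Function.Injective L.toLinearMap := inj
  refine ⟨inj, fun W C hR => ?_, fun A hA => ?_⟩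
  · refine ⟨?_, ?_, ?_, ?_⟩
    · rw [im, im, ← Submodule.map_inf _ inj', hR.inf, Submodule.map_bot]
    · rw [im, im, ← Submodule.map_sup, hR.sup, rg, Submodule.map_top]
    · rintro _ ⟨a, ha, rfl⟩ _ ⟨b, hb, rfl⟩
      have h1 := hR.hilb a ha b hb
      rw [← hL, ← hL, ← hL a, ← hL b, map_add, map_sub] at h1
      exact h1
    · rintro _ ⟨a, ha, rfl⟩ _ ⟨a', ha', rfl⟩ _ ⟨c, hc, rfl⟩ heq
      have h2 : N0 a = N0 a' := by
        rw [← hL a, ← hL a']
        exact heq
      have h1 := hR.rot a ha a' ha' c hc h2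
      rw [← hL, ← hL, map_add, map_add] at h1
      exact h1
  · obtain ⟨C, hC⟩ := hA
    refine ⟨⟨C.comap L.toLinearMap, ?_, ?_, ?_, ?_⟩, ?_⟩
    · rw [← Submodule.comap_inf, hC.inf, Submodule.comap_bot]
      exact LinearMap.ker_eq_bot.mpr inj'
    · rw [eq_top_iff]
      intro x _
      have hx : L x ∈ A ⊔ C := by
        rw [hC.sup]
        exact ⟨x, rfl⟩
      obtain ⟨a, ha, c, hc, hac⟩ := Submodule.mem_sup.mp hx
      have ha' : a ∈ rg L := hC.sup ▸ (le_sup_left (a := A) ha)
      have hc' : c ∈ rg L := hC.sup ▸ (le_sup_right (a := A) hc)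
      obtain ⟨a, rfl⟩ := ha'
      obtain ⟨c, rfl⟩ := hc'
      refine Submodule.mem_sup.mpr ⟨a, ha, c, hc, inj ?_⟩
      rw [map_add]
      exact hac
    · intro a ha b hb
      have h1 := hC.hilb (L a) ha (L b) hb
      rw [← map_add, ← map_sub, hL, hL, hL, hL] at h1
      exact h1
    · intro a ha a' ha' c hc heq
      have h1 := hC.rot (L a) ha (L a') ha' (L c) hc (by rw [hL, hL, heq])
      rw [← map_add, ← map_add, hL, hL] at h1
      exact h1
    · rw [im, Submodule.map_comap_eq, inf_eq_right]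
      exact KEY.rot_le ⟨C, hC⟩

theorem st_HIL : ST_HIL := by
  intro n N0 N hn hS hR x y
  obtain ⟨C, hC⟩ := hR
  have h1 : Submodule.span ℂ {x, y} < ⊤ := by
    rw [lt_top_iff_ne_top]
    intro h2
    have h3 : Module.finrank ℂ (Submodule.span ℂ ({x, y} : Set (E (n + 1)))) ≤ 2 := by
      classical
      have h4 := finrank_span_finset_le_card (R := ℂ) ({x, y} : Finset (E (n + 1)))
      rw [Finset.coe_insert, Finset.coe_singleton] at h4
      exact h4.trans Finset.card_le_two
    rw [h2, finrank_top] at h3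
    have h10 : Module.finrank ℂ (E (n + 1)) = n + 1 := by simp
    omega
  obtain ⟨f, hf, hle⟩ := Submodule.exists_le_ker_of_lt_top _ h1
  obtain ⟨L, hL, hLr⟩ := hS.hyp (LinearMap.toContinuousLinearMap f) (by
    intro h2
    apply hf
    have := congrArg (fun g : E (n + 1) →L[ℂ] ℂ => g.toLinearMap) h2
    simpa using this)
  have hx : x ∈ rg L := by
    rw [hLr]
    exact hle (Submodule.subset_span (by simp))
  have hy : y ∈ rg L := by
    rw [hLr]
    exact hle (Submodule.subset_span (by simp))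
  obtain ⟨x, rfl⟩ := hx
  obtain ⟨y, rfl⟩ := hy
  have h2 := hC.hilb x trivial y trivial
  rw [← hL, ← hL, ← hL x, ← hL y, map_add, map_sub] at h2
  exact h2

end Pool.Agent.Helper83.CB
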