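import Pool.Agent.Helper83.CB.Defs

/-!
# CB: module KEY
-/

open Filter Topology

namespace Pool.Agent.Helper83.CB

namespace KEY

theorem zero {V : Type*} [AddCommGroup V] [Module ℂ V] {N : V → ℝ} (h : IsNorm N) : N 0 = 0 := by
  have := h.smul 0 0
  simpa using this

theorem neg {V : Type*} [AddCommGroup V] [Module ℂ V] {N : V → ℝ} (h : IsNorm N) (x : V) :
    N (-x) = N x := by
  have := h.smul (-1) x
  simpa using this

theorem nonneg {V : Type*} [AddCommGroup V] [Module ℂ V] {N : V → ℝ} (h : IsNorm N) (x : V) :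
    0 ≤ N x := by
  by_cases hx : x = 0
  · rw [hx, zero h]
  · exact (h.pos x hx).le

theorem bound {m : ℕ} {N : E m → ℝ} (h : IsNorm N) : ∃ K : ℝ, 0 ≤ K ∧ ∀ x, N x ≤ K * ‖x‖ := by
  refine ⟨∑ i : Fin m, N (EuclideanSpace.single i (1 : ℂ)),
    Finset.sum_nonneg fun i _ => nonneg h _, fun x => ?_⟩
  have e : x = ∑ i : Fin m, x i • EuclideanSpace.single i (1 : ℂ) := by
    have := (EuclideanSpace.basisFun (Fin m) ℂ).sum_repr x
    simpa using this.symm
  have h1 : ∀ s : Finset (Fin m), N (∑ i ∈ s, x i • EuclideanSpace.single i (1 : ℂ)) ≤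
      ∑ i ∈ s, N (x i • EuclideanSpace.single i (1 : ℂ)) := by
    intro s
    classical
    induction s using Finset.induction_on with
    | empty => simp [zero h]
    | insert a s ha ih =>
      rw [Finset.sum_insert ha, Finset.sum_insert ha]
      exact (h.add _ _).trans (by linarith)
  calc N x = N (∑ i : Fin m, x i • EuclideanSpace.single i (1 : ℂ)) := by rw [← e]
    _ ≤ ∑ i : Fin m, N (x i • EuclideanSpace.single i (1 : ℂ)) := h1 _
    _ ≤ ∑ i : Fin m, N (EuclideanSpace.single i (1 : ℂ)) * ‖x‖ := by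
        refine Finset.sum_le_sum fun i _ => ?_
        rw [h.smul, mul_comm]
        exact mul_le_mul_of_nonneg_left (PiLp.norm_apply_le x i) (nonneg h _)
    _ = _ := by rw [Finset.sum_mul]

theorem cont {m : ℕ} {N : E m → ℝ} (h : IsNorm N) : Continuous N := by
  obtain ⟨K, hK, hb⟩ := bound h
  have h1 : ∀ x y, N x - N y ≤ K * ‖x - y‖ := by
    intro x y
    have h2 := h.add (x - y) y
    rw [sub_add_cancel] at h2
    linarith [hb (x - y)]
  refine (LipschitzWith.of_dist_le_mul (K := ⟨K, hK⟩) fun x y => ?_).continuous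
  rw [Real.dist_eq, dist_eq_norm, abs_le]
  have h2 := h1 x y
  have h3 := h1 y x
  rw [norm_sub_rev] at h3
  constructor
  · show -(K * ‖x - y‖) ≤ _
    linarith
  · exact h2

theorem rot_le {V : Type*} [AddCommGroup V] [Module ℂ V] {N : V → ℝ} {H A : Submodule ℂ V}
    (h : IsRot N H A) : A ≤ H := by
  obtain ⟨C, hC⟩ := h
  rw [← hC.sup]
  exact le_sup_left

theorem finrank_im {n m : ℕ} (L : E n →L[ℂ] E m) (hL : Function.Injective L)
    (W : Submodule ℂ (E n)) : Module.finrank ℂ (im L W) = Module.finrank ℂ W :=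
  (Submodule.equivMapOfInjective L.toLinearMap hL W).finrank_eq.symm

theorem im_le_rg {n m : ℕ} (L : E n →L[ℂ] E m) (W : Submodule ℂ (E n)) : im L W ≤ rg L :=
  LinearMap.map_le_range

theorem mem_kr {m : ℕ} {f : E m →L[ℂ] ℂ} {x : E m} : x ∈ kr f ↔ f x = 0 := LinearMap.mem_ker

/-- the main argument, for a sequence with distinct spaces -/
theorem core (h1 : ST_G1) (h2 : ST_SUM) (h3 : ST_INTER) (h4 : ST_MAXI) (h5 : ST_TRANS)
    (h6 : ST_CONV) (h7 : ST_LIM) (n : ℕ) (N0 : E n → ℝ) (N : E (n + 1) → ℝ)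
    (hS : Setup n N0 N) (W1 C1 : Submodule ℂ (E n)) (hM : MaxRot N0 W1 C1)
    (L L' : ℕ → E n →L[ℂ] E (n + 1)) (L0 : E n →L[ℂ] E (n + 1))
    (f f' : ℕ → E (n + 1) →L[ℂ] ℂ) (ν : E (n + 1) →L[ℂ] ℂ) (s : ℕ → ℝ)
    (hL : ∀ j, L j ∈ PP N0 N ∧ L' j ∈ PP N0 N ∧ rg (L j) = kr (f j) ∧ rg (L' j) = kr (f' j))
    (hL0 : L0 ∈ PP N0 N) (tL : Tendsto L atTop (𝓝 L0)) (tL' : Tendsto L' atTop (𝓝 L0))
    (hs : ∀ j, 0 < s j)
    (tν : Tendsto (fun j => ((s j)⁻¹ : ℂ) • (f j - f' j)) atTop (𝓝 ν))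
    (hν : ∀ c ∈ C1, ν (L0 c) = 0) (hw : ∃ w ∈ W1, ν (L0 w) ≠ 0)
    (hne : ∀ j, im (L j) W1 ⊓ kr (f' j) ≠ im (L' j) W1 ⊓ kr (f j)) : False := by
  obtain ⟨w, hwW, hw⟩ := hw
  obtain ⟨conv1, conv2, conv3⟩ := h6 (n + 1)
  set g : ℕ → E (n + 1) →L[ℂ] ℂ := fun j => ((s j)⁻¹ : ℂ) • (f j - f' j) with hg
  have hs' : ∀ j, ((s j : ℂ))⁻¹ ≠ 0 := fun j => inv_ne_zero (by exact_mod_cast (hs j).ne')
  have inj : ∀ j, Function.Injective (L j) := fun j => (h5 n _ N0 N hS.norm0 hS.norm _ (hL j).1).1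
  have inj' : ∀ j, Function.Injective (L' j) :=
    fun j => (h5 n _ N0 N hS.norm0 hS.norm _ (hL j).2.1).1
  have inj0 : Function.Injective L0 := (h5 n _ N0 N hS.norm0 hS.norm _ hL0).1
  -- kernels
  have kg : ∀ j x, g j x = 0 ↔ f j x = f' j x := by
    intro j x
    simp only [hg, _root_.smul_apply, _root_.sub_apply, smul_eq_mul,
      mul_eq_zero, hs' j, false_or, sub_eq_zero]
  have eA : ∀ j, im (L j) W1 ⊓ kr (f' j) = im (L j) W1 ⊓ kr (g j) := by
    intro j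
    ext x
    simp only [Submodule.mem_inf, mem_kr, kg]
    refine and_congr_right fun hx => ?_
    have h8 : x ∈ kr (f j) := (hL j).2.2.1 ▸ im_le_rg _ _ hx
    rw [mem_kr] at h8
    rw [h8]
    exact eq_comm
  have eA' : ∀ j, im (L' j) W1 ⊓ kr (f j) = im (L' j) W1 ⊓ kr (g j) := by
    intro j
    ext x
    simp only [Submodule.mem_inf, mem_kr, kg]
    refine and_congr_right fun hx => ?_
    have h8 : x ∈ kr (f' j) := (hL j).2.2.2 ▸ im_le_rg _ _ hx
    rw [mem_kr] at h8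
    rw [h8]
  have eP : ∀ j, rg (L j) ⊓ kr (g j) = rg (L' j) ⊓ kr (g j) := by
    intro j
    ext x
    simp only [Submodule.mem_inf, (hL j).2.2.1, (hL j).2.2.2, mem_kr, kg]
    constructor
    · rintro ⟨h8, h9⟩
      exact ⟨by rw [← h9, h8], h9⟩
    · rintro ⟨h8, h9⟩
      exact ⟨by rw [h9, h8], h9⟩
  -- the rotational subspaces
  set P : ℕ → Submodule ℂ (E (n + 1)) := fun j => rg (L j) ⊓ kr (g j) with hP
  set A : ℕ → Submodule ℂ (E (n + 1)) := fun j => im (L j) W1 ⊓ kr (g j) with hA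
  set A' : ℕ → Submodule ℂ (E (n + 1)) := fun j => im (L' j) W1 ⊓ kr (g j) with hA'
  have rA : ∀ j, IsRot N (P j) (A j) := by
    intro j
    have h8 := (h5 n _ N0 N hS.norm0 hS.norm _ (hL j).1).2.1 W1 C1 hM.rot
    have h9 := h3 _ N hS.norm _ _ _ (P j) h8 inf_le_left
    have e : im (L j) W1 ⊓ P j = A j := by
      rw [hP, hA]
      dsimp only
      rw [← inf_assoc, inf_eq_left.mpr (im_le_rg (L j) W1)]
    rwa [e] at h9
  have rA' : ∀ j, IsRot N (P j) (A' j) := by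
    intro j
    have h8 := (h5 n _ N0 N hS.norm0 hS.norm _ (hL j).2.1).2.1 W1 C1 hM.rot
    have h9 := h3 _ N hS.norm _ _ _ (P j) h8 (by
      rw [hP]
      dsimp only
      rw [eP]
      exact inf_le_left)
    have e : im (L' j) W1 ⊓ P j = A' j := by
      rw [hP, hA']
      dsimp only
      rw [eP, ← inf_assoc, inf_eq_left.mpr (im_le_rg (L' j) W1)]
    rwa [e] at h9
  -- limits
  have cL : SubConv (fun j => rg (L j)) (rg L0) :=
    ⟨n, L, L0, fun j => ⟨inj j, rfl⟩, inj0, rfl, tL⟩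
  have nν : ¬ im L0 W1 ≤ kr ν := by
    intro h8
    exact hw (mem_kr.mp (h8 (Submodule.mem_map_of_mem hwW)))
  have nν' : ¬ rg L0 ≤ kr ν := fun h8 => nν ((im_le_rg _ _).trans h8)
  obtain ⟨J1, c1⟩ := (conv2 _ _ cL).2.2.2.2 g ν tν nν'
  obtain ⟨J2, c2⟩ := (conv2 _ _ (conv3 n L L0 W1 inj inj0 tL)).2.2.2.2 g ν tν nν
  obtain ⟨J3, c3⟩ := (conv2 _ _ (conv3 n L' L0 W1 inj' inj0 tL')).2.2.2.2 g ν tν nν
  set J := J1 + J2 + J3 with hJ
  set A0 : Submodule ℂ (E (n + 1)) := im L0 W1 ⊓ kr ν with hA0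
  set P0 : Submodule ℂ (E (n + 1)) := rg L0 ⊓ kr ν with hP0
  have shift : ∀ (X : ℕ → Submodule ℂ (E (n + 1))) (X0 : Submodule ℂ (E (n + 1))) (a b c : ℕ),
      c + a = b → SubConv (fun j => X (j + a)) X0 → SubConv (fun j => X (j + b)) X0 := by
    intro X X0 a b c hc hX
    have h8 := (conv2 _ _ hX).2.1 (fun j => j + c) (fun i j hij => Nat.add_lt_add_right hij c)
    have e : ((fun j => X (j + a)) ∘ fun j => j + c) = fun j => X (j + b) := by
      funext j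
      show X (j + c + a) = X (j + b)
      rw [add_assoc, hc]
    rwa [e] at h8
  have d1 : SubConv (fun j => P (j + J)) P0 := shift P P0 J1 J (J2 + J3) (by omega) c1
  have d2 : SubConv (fun j => A (j + J)) A0 := shift A A0 J2 J (J1 + J3) (by omega) c2
  have d3 : SubConv (fun j => A' (j + J)) A0 := shift A' A0 J3 J (J1 + J2) (by omega) c3
  -- `A0` is nonzero
  have hA0ne : A0 ≠ ⊥ := by
    intro h8
    have h9 : Function.Injective ((ν.toLinearMap).comp (im L0 W1).subtype) := by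
      rw [← LinearMap.ker_eq_bot, LinearMap.ker_eq_bot']
      rintro ⟨x, hx⟩ h10
      have h11 : x ∈ A0 := ⟨hx, mem_kr.mpr h10⟩
      rw [h8, Submodule.mem_bot] at h11
      exact Subtype.ext h11
    have h10 := LinearMap.finrank_le_finrank_of_injective h9
    rw [finrank_im L0 inj0, Module.finrank_self] at h10
    have := hM.two
    omega
  obtain ⟨a0, ha0, ha0ne⟩ := (Submodule.ne_bot_iff _).mp hA0ne
  -- not orthogonal for large j
  obtain ⟨y, hy, ty⟩ := (conv2 _ _ d2).2.2.1 a0 ha0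
  obtain ⟨y', hy', ty'⟩ := (conv2 _ _ d3).2.2.1 a0 ha0
  have ev : ∀ᶠ j in atTop, N (y j - y' j) < N (y j) := by
    have hc := cont hS.norm
    have t1 : Tendsto (fun j => N (y j - y' j)) atTop (𝓝 (N (a0 - a0))) :=
      (hc.tendsto _).comp (ty.sub ty')
    have t2 : Tendsto (fun j => N (y j)) atTop (𝓝 (N a0)) := (hc.tendsto _).comp ty
    rw [sub_self, zero hS.norm] at t1
    exact t1.eventually_lt t2 (hS.norm.pos a0 ha0ne)
  have ev2 : ∀ᶠ j in atTop, IsRot N (P (j + J)) (A (j + J) ⊔ A' (j + J)) := by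
    filter_upwards [ev] with j hj
    obtain ⟨C, hC⟩ := rA (j + J)
    obtain ⟨C', hC'⟩ := rA' (j + J)
    refine h2 _ N hS.norm _ _ _ _ _ hC hC' fun hle => ?_
    have h8 := (h1 _ N hS.norm _ _ _ hC (y j) (hy j) (-(y' j))
      (C.neg_mem (hle (hy' j)))).1
    rw [← sub_eq_add_neg] at h8
    linarith
  obtain ⟨j0, hj0⟩ := eventually_atTop.mp ev2
  -- constant dimension along a subsequence
  have hfin : ∃ d, ∃ᶠ j in atTop, Module.finrank ℂ ↥(A (j + J) ⊔ A' (j + J)) = d := by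
    by_contra hcon
    push Not at hcon
    have h8 : ∀ᶠ j : ℕ in atTop, ∀ d ∈ Finset.range (n + 2),
        Module.finrank ℂ ↥(A (j + J) ⊔ A' (j + J)) ≠ d := by
      rw [Filter.eventually_all_finset]
      intro d _
      exact hcon d
    obtain ⟨j, hj⟩ := h8.exists
    refine hj _ (Finset.mem_range.mpr ?_) rfl
    have h9 := Submodule.finrank_le (A (j + J) ⊔ A' (j + J))
    have h10 : Module.finrank ℂ (E (n + 1)) = n + 1 := by simp
    omega
  obtain ⟨d, hd⟩ := hfin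
  obtain ⟨φ, hφ, hφd⟩ := Filter.extraction_of_frequently_atTop
    (hd.and_eventually (eventually_ge_atTop j0))
  obtain ⟨ψ, hψ, B, hB⟩ := conv1 d (fun j => A (φ j + J) ⊔ A' (φ j + J)) (fun j => (hφd j).1)
  set χ := φ ∘ ψ with hχ
  have hχm : StrictMono χ := hφ.comp hψ
  have e1 := (conv2 _ _ d1).2.1 χ hχm
  have e2 := (conv2 _ _ d2).2.1 χ hχm
  have hB' : SubConv (fun j => A (χ j + J) ⊔ A' (χ j + J)) B := hB
  have rB : IsRot N P0 B := h7 _ N hS.norm _ _ _ _ e1 hB' (fun j => hj0 _ (hφd (ψ j)).2)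
  -- `A0 ≤ B`
  have hAB : A0 ≤ B := by
    intro x hx
    obtain ⟨z, hz, tz⟩ := (conv2 _ _ e2).2.2.1 x hx
    exact (conv2 _ _ hB').2.2.2.1 z x (fun j => le_sup_left (a := A (χ j + J)) (hz j)) tz
  -- dimension
  have hdim : Module.finrank ℂ A0 < Module.finrank ℂ B := by
    have f1 := (conv2 _ _ hB').1 0
    have f2 := (conv2 _ _ d2).1 (χ 0)
    have f3 := (conv2 _ _ d3).1 (χ 0)
    rw [← f1, ← f2]
    refine Submodule.finrank_lt_finrank_of_lt (lt_of_le_of_ne le_sup_left fun h8 => ?_)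
    have h9 : A' (χ 0 + J) ≤ A (χ 0 + J) := by
      rw [h8]
      exact le_sup_right
    have h10 : A' (χ 0 + J) = A (χ 0 + J) :=
      Submodule.eq_of_le_of_finrank_eq h9 (by rw [f2, f3])
    apply hne (χ 0 + J)
    rw [eA, eA']
    exact h10.symm
  -- maximality
  have hR := (h5 n _ N0 N hS.norm0 hS.norm _ hL0).2.1 W1 C1 hM.rot
  have hWP : im L0 W1 ⊓ P0 = A0 := by
    rw [hP0, hA0, ← inf_assoc, inf_eq_left.mpr (im_le_rg L0 W1)]
  have hCP : im L0 C1 ≤ P0 := by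
    refine le_inf (im_le_rg _ _) ?_
    rintro _ ⟨c, hc, rfl⟩
    exact mem_kr.mpr (hν c hc)
  have hRB := h4 _ N hS.norm (rg L0) (im L0 W1) (im L0 C1) P0 B hR inf_le_left hCP
    (by rw [hWP]; exact hA0ne) rB (by rw [hWP]; exact hAB)
  obtain ⟨g1, g2⟩ := (h5 n _ N0 N hS.norm0 hS.norm _ hL0).2.2 _ hRB
  have g3 := hM.max _ g1
  have g4 := finrank_im L0 inj0 ((im L0 W1 ⊔ B).comap L0.toLinearMap)
  rw [g2] at g4
  rw [← g4, ← finrank_im L0 inj0 W1] at g3
  have g5 : im L0 W1 = im L0 W1 ⊔ B := Submodule.eq_of_le_of_finrank_le le_sup_left g3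
  have g6 : B ≤ im L0 W1 := by
    rw [g5]
    exact le_sup_right
  have g7 : B ≤ A0 := by
    rw [← hWP]
    exact le_inf g6 (rot_le rB)
  exact absurd (Submodule.finrank_mono g7) (not_le.mpr hdim)

end KEY

open KEY in
theorem st_KEY (h1 : ST_G1) (h2 : ST_SUM) (h3 : ST_INTER) (h4 : ST_MAXI) (h5 : ST_TRANS)
    (h6 : ST_CONV) (h7 : ST_LIM) : ST_KEY := by
  intro n N0 N hS W1 C1 hM L L' L0 f f' f0 ν s hL hL0 tL tL' _ _ _ hs tν hν hw
  by_contra hcon
  obtain ⟨φ, hφ, hne⟩ := Filter.extraction_of_frequently_atTop (Filter.not_eventually.mp hcon)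
  exact core h1 h2 h3 h4 h5 h6 h7 n N0 N hS W1 C1 hM (L ∘ φ) (L' ∘ φ) L0 (f ∘ φ) (f' ∘ φ) ν
    (s ∘ φ) (fun j => hL (φ j)) hL0 (tL.comp hφ.tendsto_atTop) (tL'.comp hφ.tendsto_atTop)
    (fun j => hs (φ j)) (tν.comp hφ.tendsto_atTop) hν hw hne

end Pool.Agent.Helper83.CB
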