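import Pool.Agent.Helper83.CB.Defs2
import Pool.Agent.Helper96.CB.G1

/-!
# CB: module NEAR
-/

open Filter Topology

namespace Pool.Agent.Helper83.CB

namespace NEAR

theorem pp_inj {n m : ℕ} {N0 : E n → ℝ} {N : E m → ℝ} (h0 : IsNorm N0) (h : IsNorm N)
    {L : E n →L[ℂ] E m} (hL : L ∈ PP N0 N) : Function.Injective L :=
  (st_TRANS n m N0 N h0 h L hL).1

/-- a hyperplane is a kernel -/
theorem exists_kr {n : ℕ} (J : E n →L[ℂ] E (n + 1)) (hJ : Function.Injective J) :
    ∃ f : E (n + 1) →L[ℂ] ℂ, f ≠ 0 ∧ rg J = kr f := by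
  have h1 : Module.finrank ℂ (rg J) = n := by
    rw [rg, LinearMap.finrank_range_of_inj hJ]
    simp
  have h10 : Module.finrank ℂ (E (n + 1)) = n + 1 := by simp
  have h2 : rg J < ⊤ := by
    rw [lt_top_iff_ne_top]
    intro h2
    rw [h2, finrank_top] at h1
    omega
  obtain ⟨f, hf, hle⟩ := Submodule.exists_le_ker_of_lt_top _ h2
  refine ⟨LinearMap.toContinuousLinearMap f, ?_, ?_⟩
  · intro h2
    apply hf
    have := congrArg (fun g : E (n + 1) →L[ℂ] ℂ => g.toLinearMap) h2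
    simpa using this
  · have h3 : Module.finrank ℂ (LinearMap.ker f) + 1 = Module.finrank ℂ (E (n + 1)) :=
      Module.Dual.finrank_ker_add_one_of_ne_zero hf
    refine Submodule.eq_of_le_of_finrank_eq hle ?_
    show _ = Module.finrank ℂ (LinearMap.ker f)
    omega

theorem left_inv {n m : ℕ} (L : E n →L[ℂ] E m) (hL : Function.Injective L) :
    ∃ K : E m →L[ℂ] E n, K.comp L = ContinuousLinearMap.id ℂ (E n) := by
  obtain ⟨K, hK⟩ := LinearMap.exists_leftInverse_of_injective L.toLinearMap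
    (LinearMap.ker_eq_bot.mpr hL)
  refine ⟨LinearMap.toContinuousLinearMap K, ?_⟩
  ext1 x
  exact LinearMap.congr_fun hK x

end NEAR

open NEAR in
theorem st_NEAR (h : ST_LIFT) : ST_NEAR := by
  intro n N0 N hS η hη
  by_contra hcon
  push Not at hcon
  have hcon' : ∀ k : ℕ, ∃ L ∈ PP N0 N, ∃ J, ‖J - L‖ < 1 / ((k : ℝ) + 1) ∧
      ∀ Y : M n, ‖Y - 1‖ < η → J.comp Y ∉ PP N0 N :=
    fun k => hcon (1 / ((k : ℝ) + 1)) (by positivity)
  choose L hL J hJ hY using hcon'
  obtain ⟨L0, hL0, φ, hφ, tφ⟩ := (h n N0 N hS).1.tendsto_subseq hL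
  have tJ : Tendsto (fun k => J (φ k)) atTop (𝓝 L0) := by
    have h1 : Tendsto (fun k => J k - L k) atTop (𝓝 0) :=
      squeeze_zero_norm (fun k => (hJ k).le) tendsto_one_div_add_atTop_nhds_zero_nat
    have h2 := (h1.comp hφ.tendsto_atTop).add tφ
    simpa [Function.comp_def] using h2
  obtain ⟨K0, hK0⟩ := left_inv L0 (pp_inj hS.norm0 hS.norm hL0)
  -- invertibility
  set u : ℕ → M n := fun k => K0.comp (J (φ k)) with hu
  have tu : Tendsto u atTop (𝓝 1) := by
    have h1 : Continuous fun J : E n →L[ℂ] E (n + 1) => K0.comp J :=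
      continuous_const.clm_comp continuous_id
    have h2 := (h1.tendsto L0).comp tJ
    rw [hK0] at h2
    exact h2
  have hunit : ∀ᶠ k in atTop, IsUnit (u k) := by
    have h1 : {x : M n | IsUnit x} ∈ 𝓝 (1 : M n) := Units.isOpen.mem_nhds isUnit_one
    exact tu.eventually h1
  have tinv : Tendsto (fun k => Ring.inverse (u k)) atTop (𝓝 1) := by
    have h1 := (NormedRing.inverse_continuousAt (1 : (M n)ˣ)).tendsto
    rw [Units.val_one, Ring.inverse_one] at h1
    exact h1.comp tu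
  -- the isometric embeddings with the same range
  have hL' : ∀ k, ∃ L' ∈ PP N0 N, IsUnit (u k) → rg L' = rg (J (φ k)) := by
    intro k
    by_cases hk : IsUnit (u k)
    · have hinj : Function.Injective (J (φ k)) := by
        obtain ⟨v, hv⟩ := hk
        refine Function.HasLeftInverse.injective ⟨fun y => (v⁻¹ : (M n)ˣ).val (K0 y), fun z => ?_⟩
        have h1 : (v⁻¹ : (M n)ˣ).val * u k = 1 := by rw [← hv, Units.inv_mul]
        exact DFunLike.congr_fun h1 z
      obtain ⟨f, hf, hfr⟩ := exists_kr _ hinj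
      obtain ⟨L', hL', hLr⟩ := hS.hyp f hf
      exact ⟨L', hL', fun _ => by rw [hLr, hfr]⟩
    · exact ⟨L0, hL0, fun h1 => absurd h1 hk⟩
  choose L' hL' hLr using hL'
  obtain ⟨L1, hL1, ψ, hψ, tψ⟩ := (h n N0 N hS).1.tendsto_subseq hL'
  set Y : ℕ → M n := fun k => Ring.inverse (u k) * K0.comp (L' k) with hYdef
  have hJY : ∀ k, IsUnit (u k) → (J (φ k)).comp (Y k) = L' k := by
    intro k hk
    ext1 z
    have h1 : L' k z ∈ rg (J (φ k)) := by
      rw [← hLr k hk]
      exact ⟨z, rfl⟩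
    obtain ⟨w, hw⟩ := h1
    have hw' : J (φ k) w = L' k z := hw
    have h2 : Y k z = w := by
      show Ring.inverse (u k) (K0 (L' k z)) = w
      rw [← hw']
      have h3 : Ring.inverse (u k) * u k = 1 := Ring.inverse_mul_cancel _ hk
      exact DFunLike.congr_fun h3 w
    rw [ContinuousLinearMap.comp_apply, h2, hw']
  have tY : Tendsto (fun k => Y (ψ k)) atTop (𝓝 (K0.comp L1)) := by
    have h1 : Continuous fun J : E n →L[ℂ] E (n + 1) => K0.comp J :=
      continuous_const.clm_comp continuous_id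
    have h2 := (h1.tendsto L1).comp tψ
    have h3 := (tinv.comp hψ.tendsto_atTop).mul h2
    rw [one_mul] at h3
    exact h3
  set Y0 : M n := K0.comp L1 with hY0
  have hLY : L0.comp Y0 = L1 := by
    have h1 : Tendsto (fun k => (J (φ (ψ k))).comp (Y (ψ k))) atTop (𝓝 (L0.comp Y0)) := by
      have hc : Continuous fun p : (E n →L[ℂ] E (n + 1)) × M n => p.1.comp p.2 :=
        continuous_fst.clm_comp continuous_snd
      exact (hc.tendsto (L0, Y0)).comp ((tJ.comp hψ.tendsto_atTop).prodMk_nhds tY)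
    have h2 : (fun k => (J (φ (ψ k))).comp (Y (ψ k))) =ᶠ[atTop] fun k => L' (ψ k) := by
      filter_upwards [hψ.tendsto_atTop.eventually hunit] with k hk
      exact hJY _ hk
    exact tendsto_nhds_unique (h1.congr' h2) tψ
  -- `Y0` is an isometry
  have hYiso : ∀ z, N0 (Y0 z) = N0 z := by
    intro z
    have h1 := hL0 (Y0 z)
    have h2 := hL1 z
    rw [← hLY] at h2
    rw [← h1, ← h2]
    rfl
  have hY0inj : Function.Injective Y0 := pp_inj hS.norm0 hS.norm0 hYiso
  have hY0u : IsUnit Y0 := by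
    have h1 : IsUnit (Y0.toLinearMap) := by
      rw [LinearMap.isUnit_iff_ker_eq_bot]
      exact LinearMap.ker_eq_bot.mpr hY0inj
    obtain ⟨e, he⟩ := h1
    have e1 : Y0 * LinearMap.toContinuousLinearMap (e⁻¹ : (E n →ₗ[ℂ] E n)ˣ).val = 1 := by
      ext1 z
      have h2 : e.val * (e⁻¹ : (E n →ₗ[ℂ] E n)ˣ).val = 1 := e.mul_inv
      rw [he] at h2
      exact LinearMap.congr_fun h2 z
    have e2 : LinearMap.toContinuousLinearMap (e⁻¹ : (E n →ₗ[ℂ] E n)ˣ).val * Y0 = 1 := by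
      ext1 z
      have h2 : (e⁻¹ : (E n →ₗ[ℂ] E n)ˣ).val * e.val = 1 := e.inv_mul
      rw [he] at h2
      exact LinearMap.congr_fun h2 z
    exact ⟨⟨Y0, _, e1, e2⟩, rfl⟩
  obtain ⟨v, hv⟩ := hY0u
  set Z : M n := (v⁻¹ : (M n)ˣ).val with hZ
  have hZ1 : Y0 * Z = 1 := by rw [← hv, hZ, Units.mul_inv]
  have hZiso : ∀ z, N0 (Z z) = N0 z := by
    intro z
    rw [← hYiso (Z z)]
    congr 1
    exact DFunLike.congr_fun hZ1 z
  have tYZ : Tendsto (fun k => Y (ψ k) * Z) atTop (𝓝 1) := by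
    have h1 := tY.mul_const Z
    rw [hZ1] at h1
    exact h1
  have h1 : ∀ᶠ k in atTop, ‖Y (ψ k) * Z - 1‖ < η := by
    have h2 : Tendsto (fun k => ‖Y (ψ k) * Z - 1‖) atTop (𝓝 0) :=
      tendsto_iff_norm_sub_tendsto_zero.mp tYZ
    exact h2.eventually_lt_const hη
  obtain ⟨k, hk1, hk2⟩ := (h1.and (hψ.tendsto_atTop.eventually hunit)).exists
  refine hY (φ (ψ k)) _ hk1 fun z => ?_
  have h3 : (J (φ (ψ k))).comp (Y (ψ k) * Z) = (L' (ψ k)).comp Z := by
    rw [← hJY _ hk2]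
    rfl
  rw [h3]
  show N (L' (ψ k) (Z z)) = N0 z
  rw [hL' (ψ k) (Z z), hZiso]

end Pool.Agent.Helper83.CB
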